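import Pool.Agent.Helper41.LD.Defs
import Pool.Agent.Helper95.KX.SMeas

/-!
# Project LD3, block LIST: the list of the good bases
-/

set_option autoImplicit false

namespace Pool.Agent.Helper23.LD3

open Pool.Agent.Helper41.LD (Dioph)
open Polynomial

theorem one_le_size {d q : ℕ} (hd : 1 ≤ d) (hq : 1 ≤ q) : (1 : ℝ) ≤ (d : ℝ) + Real.log q := by
  have h1 : (1 : ℝ) ≤ d := by exact_mod_cast hd
  have h2 : 0 ≤ Real.log q := Real.log_nonneg (by exact_mod_cast hq)
  linarith

/-- larger exponents -/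
theorem dioph_mono {θ : ℝ} {κ κ' : ℕ} (hκ : κ ≤ κ') (h : Dioph θ κ) : Dioph θ κ' := by
  obtain ⟨C, hC, hD⟩ := h
  refine ⟨C, hC, fun d q hd hq p => le_trans (Real.exp_le_exp.2 ?_) (hD d q hd hq p)⟩
  rw [neg_le_neg_iff]
  exact mul_le_mul_of_nonneg_left (pow_le_pow_right₀ (one_le_size hd hq) hκ) hC.le

/-- powers: `q (θ^u)^d = q θ^(u d)` and `u d + log q ≤ u (d + log q)` -/
theorem dioph_pow {θ : ℝ} {κ : ℕ} (h : Dioph θ κ) {u : ℕ} (hu : 1 ≤ u) : Dioph (θ ^ u) κ := by
  obtain ⟨C, hC, hD⟩ := h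
  have hu1 : (1 : ℝ) ≤ u := by exact_mod_cast hu
  refine ⟨C * (u : ℝ) ^ κ, by positivity, fun d q hd hq p => ?_⟩
  have h1 := hD (u * d) q (Nat.mul_pos hu hd) hq p
  rw [pow_mul] at h1
  refine le_trans (Real.exp_le_exp.2 ?_) h1
  rw [neg_le_neg_iff, mul_assoc, ← mul_pow]
  have h2 : 0 ≤ Real.log q := Real.log_nonneg (by exact_mod_cast hq)
  refine mul_le_mul_of_nonneg_left (pow_le_pow_left₀ (by positivity) ?_ κ) hC.le
  push_cast
  nlinarith

/-- rational powers; `hroot` is the statement of `dioph_root` (helper95, LD3 block GEN) -/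
theorem dioph_rat (hroot : ∀ {θ : ℝ} {κ : ℕ}, 1 < θ → 1 ≤ κ → Dioph θ κ → ∀ {v : ℕ}, 1 ≤ v → Dioph (θ ^ ((1 : ℝ) / v)) κ)
    {θ : ℝ} {κ : ℕ} (hθ : 1 < θ) (hκ : 1 ≤ κ) (h : Dioph θ κ) {r : ℚ} (hr : 0 < r) : Dioph (θ ^ (r : ℝ)) κ := by
  have h1 := hroot hθ hκ h (v := r.den) r.pos
  have hnum : 0 < r.num := Rat.num_pos.2 hr
  obtain ⟨u, hu⟩ := Int.eq_ofNat_of_zero_le hnum.le
  have hu1 : 1 ≤ u := by omega
  have h2 := dioph_pow h1 hu1
  have h3 : (θ ^ ((1 : ℝ) / r.den)) ^ u = θ ^ (r : ℝ) := by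
    rw [← Real.rpow_natCast, ← Real.rpow_mul (by linarith)]
    congr 1
    have h4 : (r : ℝ) = r.num / r.den := Rat.cast_def r
    rw [h4, hu]
    push_cast
    ring
  rwa [h3] at h2

/-- from the sparse measure: `P = q X^d - p`; if `|p| > 2 q θ^d` the distance is at least `1`, otherwise `log (1 + |p|) ≤ C (d + log q)` -/
theorem smeas_dioph {θ : ℝ} (hθ : 1 < θ) (h : Pool.Agent.Helper95.KX.SMeas θ) : ∃ κ : ℕ, 1 ≤ κ ∧ Dioph θ κ := by
  obtain ⟨A, C, hC, hP⟩ := h 1
  have hl : 0 < Real.log θ := Real.log_pos hθ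
  have hθ0 : 0 < θ := by linarith
  refine ⟨A + 1, by omega, C * (3 + Real.log θ) ^ A, by positivity, ?_⟩
  intro d q hd hq p
  have hd1 : (1 : ℝ) ≤ d := by exact_mod_cast hd
  have hq1 : (1 : ℝ) ≤ q := by exact_mod_cast hq
  have hq0 : (0 : ℝ) < q := by linarith
  have hlq : 0 ≤ Real.log q := Real.log_nonneg hq1
  have hs := one_le_size hd hq
  have hpd : 1 ≤ θ ^ d := one_le_pow₀ hθ.le
  have hqd : 1 ≤ q * θ ^ d := by nlinarith
  by_cases hp : |(p : ℝ)| ≤ 2 * (q * θ ^ d)
  · set H : ℕ := ⌊2 * (q * θ ^ d)⌋₊ + 1 with hH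
    have hHu : (H : ℝ) ≤ 2 * (q * θ ^ d) + 1 := by
      rw [hH]
      push_cast
      linarith [Nat.floor_le (show 0 ≤ 2 * (q * θ ^ d) by positivity)]
    have hHl : 2 * (q * θ ^ d) ≤ (H : ℝ) := by
      rw [hH]
      push_cast
      exact (Nat.lt_floor_add_one _).le
    set P : ℤ[X] := Polynomial.C (q : ℤ) * X ^ d + Polynomial.C (-p) with hPd
    have hcoef : ∀ i, P.coeff i = (if i = d then (q : ℤ) else 0) + (if i = 0 then -p else 0) := by
      intro i
      rw [hPd, Polynomial.coeff_add, Polynomial.coeff_C_mul_X_pow, Polynomial.coeff_C]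
    have hP0 : P ≠ 0 := by
      intro h0
      have h1 := hcoef d
      rw [h0, Polynomial.coeff_zero, if_pos rfl, if_neg (by omega)] at h1
      have : (q : ℤ) = 0 := by linarith
      omega
    have hdeg : P.natDegree ≤ d := by
      rw [Polynomial.natDegree_le_iff_coeff_eq_zero]
      intro N hN
      rw [hcoef, if_neg (by omega), if_neg (by omega), add_zero]
    have hcard : P.support.card ≤ 1 + 1 := by
      have h1 : P.support ⊆ ({d, 0} : Finset ℕ) := by
        intro i hi
        rw [Polynomial.mem_support_iff, hcoef] at hi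
        rw [Finset.mem_insert, Finset.mem_singleton]
        by_contra hcon
        push Not at hcon
        rw [if_neg hcon.1, if_neg hcon.2] at hi
        exact hi (add_zero _)
      exact (Finset.card_le_card h1).trans Finset.card_le_two
    have hqH : (q : ℤ) ≤ H := by
      have h1 : (q : ℝ) ≤ H := by nlinarith
      exact_mod_cast h1
    have hpH : |p| ≤ H := by
      have h1 : |(p : ℝ)| ≤ H := hp.trans hHl
      exact_mod_cast h1
    have hbd : ∀ i, |P.coeff i| ≤ H := by
      intro i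
      rw [hcoef]
      by_cases h1 : i = d
      · rw [if_pos h1, if_neg (by omega), add_zero, abs_of_nonneg (by positivity)]
        exact hqH
      · rw [if_neg h1, zero_add]
        by_cases h2 : i = 0
        · rw [if_pos h2, abs_neg]
          exact hpH
        · rw [if_neg h2, abs_zero]
          positivity
    have hmain := hP d H P hP0 hdeg hcard hbd
    have haeval : Polynomial.aeval θ P = q * θ ^ d - p := by
      rw [hPd]
      simp
      ring
    rw [haeval] at hmain
    refine le_trans (Real.exp_le_exp.2 ?_) hmain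
    rw [neg_le_neg_iff, mul_assoc]
    refine mul_le_mul_of_nonneg_left ?_ hC.le
    have hlogH : Real.log (1 + H) ≤ 2 + Real.log q + d * Real.log θ := by
      have h1 : (1 : ℝ) + H ≤ 4 * (q * θ ^ d) := by linarith
      have h2 : Real.log (1 + H) ≤ Real.log (4 * (q * θ ^ d)) := Real.log_le_log (by positivity) h1
      rw [Real.log_mul (by norm_num) (by positivity), Real.log_mul (by positivity) (by positivity), Real.log_pow] at h2
      have h3 : Real.log 4 ≤ 2 := by
        have : (4 : ℝ) = 2 ^ 2 := by norm_num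
        rw [this, Real.log_pow]
        have := Real.log_two_lt_d9
        push_cast
        linarith
      linarith
    have hlogH0 : 0 ≤ Real.log (1 + H) := Real.log_nonneg (by linarith [show (0 : ℝ) ≤ H by positivity])
    have hsz : (d : ℝ) + Real.log (1 + H) ≤ (3 + Real.log θ) * ((d : ℝ) + Real.log q) := by nlinarith
    calc ((d : ℝ) + Real.log (1 + H)) ^ A ≤ ((3 + Real.log θ) * ((d : ℝ) + Real.log q)) ^ A :=
          pow_le_pow_left₀ (by positivity) hsz A
      _ = (3 + Real.log θ) ^ A * ((d : ℝ) + Real.log q) ^ A := mul_pow _ _ _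
      _ ≤ (3 + Real.log θ) ^ A * ((d : ℝ) + Real.log q) ^ (A + 1) :=
          mul_le_mul_of_nonneg_left (pow_le_pow_right₀ hs (by omega)) (by positivity)
  · push Not at hp
    have h1 : 1 ≤ |q * θ ^ d - p| := by
      have h2 : |(p : ℝ)| - |q * θ ^ d| ≤ |(p : ℝ) - q * θ ^ d| := abs_sub_abs_le_abs_sub _ _
      rw [abs_sub_comm] at h2
      rw [abs_of_pos (by positivity : 0 < q * θ ^ d)] at h2
      linarith
    refine le_trans ?_ h1
    rw [Real.exp_le_one_iff]
    have : 0 ≤ C * (3 + Real.log θ) ^ A * ((d : ℝ) + Real.log q) ^ (A + 1) := by positivity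
    linarith

end Pool.Agent.Helper23.LD3
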