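import Pool.Agent.Helper41.LD3.Defs
import Pool.Agent.Helper68.LD2.WB21

/-!
# Block MV of LD3: the variance of the increments, sharp form
-/

set_option autoImplicit false

namespace Pool.Agent.Helper23.LD3

open Set MeasureTheory Filter Topology
open Pool.Agent.Helper33.LD (ii_of_bdd measurable_haar haar_abs)
open Pool.Agent.Helper41.LD (av var ind haar idx)
open Pool.Agent.Helper68.LD (av_children sum_av_sub_sq_le child_mem av_sq_le)
open Pool.Agent.Helper41.LD2 (A M W Pot NB Wd EqA)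
open Pool.Agent.Helper34.LD2 (A_le)
open Pool.Agent.Helper68.LD2 (ii_haar_U dA dT inc_eq dT_le)

variable {U : ℕ → ℝ → ℝ} {β : ℝ}

theorem sum_pow_le_of_inj {x : ℝ} (h0 : 0 ≤ x) (h1 : x < 1) (s : Finset ℕ) (f : ℕ → ℕ) (hf : Set.InjOn f s) :
    ∑ j ∈ s, x ^ f j ≤ (1 - x)⁻¹ := by
  classical
  have e : ∑ j ∈ s, x ^ f j = ∑ i ∈ s.image f, x ^ i := (Finset.sum_image (fun a ha b hb hab => hf ha hb hab)).symm
  rw [e, ← tsum_geometric_of_lt_one h0 h1]
  exact (summable_geometric_of_lt_one h0 h1).sum_le_tsum _ fun i _ => pow_nonneg h0 i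

theorem sum_abs_pow_le {x : ℝ} (h0 : 0 ≤ x) (h1 : x < 1) (s : Finset ℕ) (j : ℕ) :
    ∑ i ∈ s, x ^ ((i - j) + (j - i)) ≤ 2 * (1 - x)⁻¹ := by
  classical
  rw [← Finset.sum_filter_add_sum_filter_not s (fun i => j ≤ i)]
  have a1 : ∑ i ∈ s.filter (fun i => j ≤ i), x ^ ((i - j) + (j - i)) ≤ (1 - x)⁻¹ := by
    apply sum_pow_le_of_inj h0 h1
    intro a ha b hb hab
    have ha' := (Finset.mem_filter.1 (Finset.mem_coe.1 ha)).2
    have hb' := (Finset.mem_filter.1 (Finset.mem_coe.1 hb)).2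
    simp only at hab
    omega
  have a2 : ∑ i ∈ s.filter (fun i => ¬ j ≤ i), x ^ ((i - j) + (j - i)) ≤ (1 - x)⁻¹ := by
    apply sum_pow_le_of_inj h0 h1
    intro a ha b hb hab
    have ha' := (Finset.mem_filter.1 (Finset.mem_coe.1 ha)).2
    have hb' := (Finset.mem_filter.1 (Finset.mem_coe.1 hb)).2
    simp only at hab
    omega
  linarith

theorem mid_sq (hβ : 1 < β) (hU : ∀ j, Measurable (U j)) {n L : ℕ} {a ℓ : ℝ} (hℓ : 0 < ℓ) (k i : ℕ) {B : ℕ} (hB : 1 ≤ B)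
    (hcov : ∀ j₁ j₂ : ℕ, n ≤ j₁ → j₁ ≤ j₂ → j₂ < n + L →
      |∫ x in a..(a + ℓ), haar k i (U j₁ x) * haar k i (U j₂ x)| ≤ 4 * (1 / 2) ^ k * β⁻¹ ^ (j₂ - j₁) * ℓ) :
    ∑ b ∈ Finset.range B, (∑ j ∈ Finset.Ico n (n + L), A U k i j (a + b * (ℓ / B)) (ℓ / B)) ^ 2 ≤
      B * (8 * (β / (β - 1)) * L * (1 / 2) ^ k) := by
  have hB0 : (0:ℝ) < B := by exact_mod_cast hB
  have hx0 : 0 ≤ β⁻¹ := inv_nonneg.2 (by linarith)
  have hx1 : β⁻¹ < 1 := inv_lt_one_of_one_lt₀ hβ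
  have hC : (1 - β⁻¹)⁻¹ = β / (β - 1) := by
    have : β - 1 ≠ 0 := by linarith
    have : β ≠ 0 := by linarith
    field_simp
  set Ψ : ℝ → ℝ := fun x => ∑ j ∈ Finset.Ico n (n + L), haar k i (U j x) with hΨ
  have hprod : ∀ j₁ j₂ : ℕ, ∀ a b : ℝ, IntervalIntegrable (fun x => haar k i (U j₁ x) * haar k i (U j₂ x)) volume a b := by
    intro j₁ j₂ a b
    refine ii_of_bdd (((measurable_haar k i).comp (hU j₁)).mul ((measurable_haar k i).comp (hU j₂))) (fun t => ?_) a b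
    show |haar k i (U j₁ t) * haar k i (U j₂ t)| ≤ 1
    rw [abs_mul]
    exact mul_le_one₀ (haar_abs k i _) (abs_nonneg _) (haar_abs k i _)
  have hΨi : ∀ a b, IntervalIntegrable Ψ volume a b := by
    intro a b
    rw [hΨ]
    have := IntervalIntegrable.sum (μ := volume) (a := a) (b := b) (Finset.Ico n (n + L))
      (f := fun j x => haar k i (U j x)) (fun j _ => ii_haar_U hU k i j a b)
    simpa [Finset.sum_fn] using this
  have hsq : ∀ x, Ψ x ^ 2 = ∑ j₁ ∈ Finset.Ico n (n + L), ∑ j₂ ∈ Finset.Ico n (n + L), haar k i (U j₁ x) * haar k i (U j₂ x) := by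
    intro x
    rw [hΨ, pow_two, Finset.sum_mul_sum]
  have hΨ2 : ∀ a b, IntervalIntegrable (fun x => Ψ x ^ 2) volume a b := by
    intro a b
    simp only [hsq]
    have := IntervalIntegrable.sum (μ := volume) (a := a) (b := b) (Finset.Ico n (n + L))
      (f := fun j₁ x => ∑ j₂ ∈ Finset.Ico n (n + L), haar k i (U j₁ x) * haar k i (U j₂ x))
      (fun j₁ _ => by
        have := IntervalIntegrable.sum (μ := volume) (a := a) (b := b) (Finset.Ico n (n + L))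
          (f := fun j₂ x => haar k i (U j₁ x) * haar k i (U j₂ x)) (fun j₂ _ => hprod j₁ j₂ a b)
        simpa [Finset.sum_fn] using this)
    simpa [Finset.sum_fn] using this
  have h1 : ∀ b ∈ Finset.range B, (∑ j ∈ Finset.Ico n (n + L), A U k i j (a + b * (ℓ / B)) (ℓ / B)) ^ 2 ≤
      av (fun x => Ψ x ^ 2) (a + b * (ℓ / B)) (ℓ / B) := by
    intro b _
    have e : ∑ j ∈ Finset.Ico n (n + L), A U k i j (a + b * (ℓ / B)) (ℓ / B) = av Ψ (a + b * (ℓ / B)) (ℓ / B) := by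
      unfold A av
      rw [← Finset.sum_div, hΨ, intervalIntegral.integral_finsetSum (fun j _ => ii_haar_U hU k i j _ _)]
    rw [e]
    exact av_sq_le hΨi hΨ2 _ (div_pos hℓ hB0)
  refine (Finset.sum_le_sum h1).trans ?_
  rw [av_children hΨ2 a hℓ hB]
  refine mul_le_mul_of_nonneg_left ?_ hB0.le
  unfold av
  rw [div_le_iff₀ hℓ]
  simp only [hsq]
  rw [intervalIntegral.integral_finsetSum (fun j₁ _ => by
    have := IntervalIntegrable.sum (μ := volume) (a := a) (b := a + ℓ) (Finset.Ico n (n + L))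
      (f := fun j₂ x => haar k i (U j₁ x) * haar k i (U j₂ x)) (fun j₂ _ => hprod j₁ j₂ _ _)
    simpa [Finset.sum_fn] using this)]
  have h2 : ∀ j₁ ∈ Finset.Ico n (n + L), ∫ x in a..(a + ℓ), ∑ j₂ ∈ Finset.Ico n (n + L), haar k i (U j₁ x) * haar k i (U j₂ x) ≤
      4 * (1 / 2) ^ k * ℓ * (2 * (β / (β - 1))) := by
    intro j₁ hj₁
    rw [intervalIntegral.integral_finsetSum (fun j₂ _ => hprod j₁ j₂ _ _)]
    have h3 : ∀ j₂ ∈ Finset.Ico n (n + L), ∫ x in a..(a + ℓ), haar k i (U j₁ x) * haar k i (U j₂ x) ≤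
        4 * (1 / 2) ^ k * ℓ * β⁻¹ ^ ((j₂ - j₁) + (j₁ - j₂)) := by
      intro j₂ hj₂
      rw [Finset.mem_Ico] at hj₁ hj₂
      refine (le_abs_self _).trans ?_
      rcases le_total j₁ j₂ with hle | hle
      · refine (hcov j₁ j₂ hj₁.1 hle hj₂.2).trans (le_of_eq ?_)
        have : (j₂ - j₁) + (j₁ - j₂) = j₂ - j₁ := by omega
        rw [this]
        ring
      · have e : ∫ x in a..(a + ℓ), haar k i (U j₁ x) * haar k i (U j₂ x) = ∫ x in a..(a + ℓ), haar k i (U j₂ x) * haar k i (U j₁ x) := by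
          congr 1
          ext x
          ring
        rw [e]
        refine (hcov j₂ j₁ hj₂.1 hle hj₁.2).trans (le_of_eq ?_)
        have : (j₂ - j₁) + (j₁ - j₂) = j₁ - j₂ := by omega
        rw [this]
        ring
    refine (Finset.sum_le_sum h3).trans ?_
    rw [← Finset.mul_sum]
    refine mul_le_mul_of_nonneg_left ?_ (by positivity)
    rw [← hC]
    exact sum_abs_pow_le hx0 hx1 _ j₁
  refine (Finset.sum_le_sum h2).trans (le_of_eq ?_)
  rw [Finset.sum_const, Nat.card_Ico, Nat.add_sub_cancel_left, nsmul_eq_mul]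
  ring

/-- second moments of the increments -/
theorem M_var3 (hβ : 1 < β) {n m m' L r K : ℕ} {a ℓ : ℝ} (hw : Wd U β n m a ℓ) (h : NB U n r K a ℓ) {k : ℕ} (hk : k < K) (i : ℕ)
    {B : ℕ} (hB : 1 ≤ B) (hw' : ∀ b < B, Wd U β (n + L) m' (a + b * (ℓ / B)) (ℓ / B)) (hL1 : 1 ≤ L)
    (hcov : ∀ j₁ j₂ : ℕ, n ≤ j₁ → j₁ ≤ j₂ → j₂ < n + L →
      |∫ x in a..(a + ℓ), haar k i (U j₁ x) * haar k i (U j₂ x)| ≤ 4 * (1 / 2) ^ k * β⁻¹ ^ (j₂ - j₁) * ℓ) :
    ∑ b ∈ Finset.range B, (M U k i (a + b * (ℓ / B)) (ℓ / B) - M U k i a ℓ) ^ 2 ≤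
      B * (2 * W U n r k i a ℓ + 80 * (β / (β - 1)) ^ 2 * L * (1 / 2) ^ k) := by
  have hℓ := hw.pos
  have hU := hw.meas
  have hx0 : 0 ≤ β⁻¹ := inv_nonneg.2 (by linarith)
  have hx1 : β⁻¹ < 1 := inv_lt_one_of_one_lt₀ hβ
  have hCe : (1 - β⁻¹)⁻¹ = β / (β - 1) := by
    have : β - 1 ≠ 0 := by linarith
    have : β ≠ 0 := by linarith
    field_simp
  set C : ℝ := β / (β - 1) with hC
  have hC1 : 1 ≤ C := by
    rw [hC, le_div_iff₀ (by linarith)]
    linarith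
  have hk0 : (0:ℝ) < (1 / 2) ^ k := by positivity
  have hk1 : (1 / 2 : ℝ) ^ k ≤ 1 := pow_le_one₀ (by norm_num) (by norm_num)
  have hB0 : (0:ℝ) < B := by exact_mod_cast hB
  have hL0 : (1:ℝ) ≤ L := by exact_mod_cast hL1
  set P : ℕ → ℝ := fun b => ∑ j ∈ Finset.Ico (n - r) n, dA U k i j a ℓ B b with hP
  set Y : ℕ → ℝ := fun b => ∑ j ∈ Finset.Ico n (n + L), A U k i j (a + b * (ℓ / B)) (ℓ / B) with hY
  set Z : ℕ → ℝ := fun b => dT U k i (n + L) a ℓ B b - ∑ j ∈ Finset.Ico n (n + L), A U k i j a ℓ with hZ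
  have hdec : ∀ b ∈ Finset.range B, (M U k i (a + b * (ℓ / B)) (ℓ / B) - M U k i a ℓ) ^ 2 ≤
      2 * P b ^ 2 + (4 * Y b ^ 2 + 4 * Z b ^ 2) := by
    intro b hb
    rw [inc_eq (n := n) (L := L) hℓ h hk i (Finset.mem_range.mp hb)]
    have e : ∑ j ∈ Finset.Ico (n - r) (n + L), dA U k i j a ℓ B b + dT U k i (n + L) a ℓ B b = P b + (Y b + Z b) := by
      rw [hP, hY, hZ]
      simp only
      rw [← Finset.sum_Ico_consecutive _ (show n - r ≤ n by omega) (show n ≤ n + L by omega)]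
      have : ∑ j ∈ Finset.Ico n (n + L), dA U k i j a ℓ B b = ∑ j ∈ Finset.Ico n (n + L), A U k i j (a + b * (ℓ / B)) (ℓ / B) -
          ∑ j ∈ Finset.Ico n (n + L), A U k i j a ℓ := by
        unfold dA
        rw [Finset.sum_sub_distrib]
      rw [this]
      ring
    rw [e]
    nlinarith [sq_nonneg (P b - (Y b + Z b)), sq_nonneg (Y b - Z b)]
  -- the pending part
  have hPs : ∑ b ∈ Finset.range B, P b ^ 2 ≤ B * W U n r k i a ℓ := by
    have h1 : ∀ b ∈ Finset.range B, P b ^ 2 ≤ r * ∑ j ∈ Finset.Ico (n - r) n, dA U k i j a ℓ B b ^ 2 := by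
      intro b _
      have h2 : (∑ j ∈ Finset.Ico (n - r) n, dA U k i j a ℓ B b) ^ 2 ≤
          ((Finset.Ico (n - r) n).card : ℝ) * ∑ j ∈ Finset.Ico (n - r) n, dA U k i j a ℓ B b ^ 2 :=
        sq_sum_le_card_mul_sum_sq
      refine h2.trans ?_
      have h3 : (0:ℝ) ≤ ∑ j ∈ Finset.Ico (n - r) n, dA U k i j a ℓ B b ^ 2 := Finset.sum_nonneg fun j _ => sq_nonneg _
      refine mul_le_mul_of_nonneg_right ?_ h3
      rw [Nat.card_Ico]
      have : n - (n - r) ≤ r := by omega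
      exact_mod_cast this
    refine (Finset.sum_le_sum h1).trans ?_
    rw [← Finset.mul_sum, Finset.sum_comm]
    unfold W
    rw [← mul_assoc (B:ℝ), mul_comm (B:ℝ), mul_assoc (r:ℝ), Finset.mul_sum (a := (B:ℝ))]
    have hr0 : (0:ℝ) ≤ r := Nat.cast_nonneg r
    refine mul_le_mul_of_nonneg_left ?_ hr0
    refine Finset.sum_le_sum fun j _ => ?_
    exact sum_av_sub_sq_le ((measurable_haar k i).comp (hU j)) (fun t => haar_abs k i _) a hℓ hB
  have hYs : ∑ b ∈ Finset.range B, Y b ^ 2 ≤ B * (8 * C * L * (1 / 2) ^ k) := mid_sq hβ hU hℓ k i hB hcov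
  have hZb : ∀ b ∈ Finset.range B, Z b ^ 2 ≤ 9 * C ^ 2 * (1 / 2) ^ k := by
    intro b hb
    have h1 := dT_le hβ hw k i (hw' b (Finset.mem_range.mp hb))
    have h2 : |∑ j ∈ Finset.Ico n (n + L), A U k i j a ℓ| ≤ (1 / 2) ^ k * C := by
      refine (Finset.abs_sum_le_sum_abs _ _).trans ?_
      refine (Finset.sum_le_sum fun j hj => A_le hw k i (Finset.mem_Ico.mp hj).1).trans ?_
      rw [← Finset.mul_sum]
      refine mul_le_mul_of_nonneg_left ?_ hk0.le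
      rw [← hCe]
      apply sum_pow_le_of_inj hx0 hx1
      intro a ha b hb hab
      have ha' := (Finset.mem_Ico.1 (Finset.mem_coe.1 ha)).1
      have hb' := (Finset.mem_Ico.1 (Finset.mem_coe.1 hb)).1
      simp only at hab
      omega
    have h3 : |Z b| ≤ 3 * C * (1 / 2) ^ k := by
      rw [hZ]
      refine (abs_sub _ _).trans ?_
      linarith
    rw [← sq_abs]
    calc |Z b| ^ 2 ≤ (3 * C * (1 / 2) ^ k) ^ 2 := pow_le_pow_left₀ (abs_nonneg _) h3 2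
      _ = 9 * C ^ 2 * ((1 / 2) ^ k * (1 / 2) ^ k) := by ring
      _ ≤ 9 * C ^ 2 * ((1 / 2) ^ k * 1) := by gcongr
      _ = _ := by ring
  refine (Finset.sum_le_sum hdec).trans ?_
  rw [Finset.sum_add_distrib, Finset.sum_add_distrib, ← Finset.mul_sum, ← Finset.mul_sum, ← Finset.mul_sum]
  have hZs : ∑ b ∈ Finset.range B, Z b ^ 2 ≤ B * (9 * C ^ 2 * (1 / 2) ^ k) := by
    refine (Finset.sum_le_sum hZb).trans (le_of_eq ?_)
    rw [Finset.sum_const, Finset.card_range, nsmul_eq_mul]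
  have hfin : 4 * (B * (8 * C * L * (1 / 2) ^ k)) + 4 * (B * (9 * C ^ 2 * (1 / 2) ^ k)) ≤
      B * (80 * C ^ 2 * L * (1 / 2 : ℝ) ^ k) := by
    have h1 : C * L ≤ C ^ 2 * L := mul_le_mul_of_nonneg_right (by nlinarith) (by linarith)
    have h2 : C ^ 2 ≤ C ^ 2 * L := le_mul_of_one_le_right (sq_nonneg C) hL0
    have h3 : 0 ≤ B * (1 / 2 : ℝ) ^ k := by positivity
    have h4 : 4 * (8 * (C * L)) + 4 * (9 * C ^ 2) ≤ 80 * (C ^ 2 * L) := by nlinarith
    calc 4 * (B * (8 * C * L * (1 / 2) ^ k)) + 4 * (B * (9 * C ^ 2 * (1 / 2) ^ k))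
        = (4 * (8 * (C * L)) + 4 * (9 * C ^ 2)) * (B * (1 / 2 : ℝ) ^ k) := by ring
      _ ≤ 80 * (C ^ 2 * L) * (B * (1 / 2 : ℝ) ^ k) := mul_le_mul_of_nonneg_right h4 h3
      _ = _ := by ring
  have : (B:ℝ) * (2 * W U n r k i a ℓ + 80 * C ^ 2 * L * (1 / 2) ^ k) =
      2 * (B * W U n r k i a ℓ) + B * (80 * C ^ 2 * L * (1 / 2) ^ k) := by ring
  rw [this]
  linarith

end Pool.Agent.Helper23.LD3
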