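import Pool.Agent.Helper41.LD2.Defs
import Pool.Agent.Helper23.LD.KR

/-!
# Block TT of LD3, part A: equidistribution from the arithmetic conditions, the final choice
-/

set_option autoImplicit false

namespace Pool.Agent.Helper23.LD3

open Set Filter Topology
open Pool.Agent.Helper41.LD (Dioph)
open Pool.Agent.Helper41.LD2 (EqA)

/-- `al` is close to a rational number of small height -/
def Close (K X : ℕ) (al : ℝ) : Prop :=
  ∃ q : ℕ, 1 ≤ q ∧ q ≤ 2 ^ (12 * K + 3) ∧ ∃ p : ℤ, |q * al - p| ≤ 1 / ((X : ℝ) + 1)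

/-- `u` is a bad exponent of `t` against `s` -/
def Bad (t s : ℝ) (K X u : ℕ) : Prop :=
  ∃ u' : ℕ, (1 / 2 : ℝ) ^ (12 * K) < s ^ u' / t ^ u ∧ s ^ u' / t ^ u < 2 ^ (12 * K) ∧
    Close K X (max (s ^ u' / t ^ u) (t ^ u / s ^ u'))

/-- A1 -/
theorem eqA_of_far {α : ℝ} {H X : ℕ} (hH : 1 ≤ H) (hX : 1 ≤ X)
    (h : ∀ q : ℕ, 1 ≤ q → q ≤ H → ∀ p : ℤ, 1 / ((X : ℝ) + 1) < |q * α - p|) : EqA α (X * H) (5 / H) := by
  intro Q hQ x p' q' hp hpq hq
  have hH0 : (0 : ℝ) < H := by exact_mod_cast hH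
  have hk := Pool.Agent.Helper23.LD.kron (α := α) hH hX h Q x hp hpq hq
  refine hk.trans ?_
  have h5 : (X : ℝ) ≤ Q / H := by
    rw [le_div_iff₀ hH0]
    exact_mod_cast hQ
  have h6 : 5 / (H : ℝ) * Q = 4 * (Q / H) + Q / H := by ring
  rw [h6]
  linarith

/-- A2 -/
theorem far_self {τ : ℝ} {κ : ℕ} (hτ : 1 < τ) (h : Dioph τ κ) : ∃ D : ℝ, 0 < D ∧ ∀ K : ℕ, 1 ≤ K → ∀ d : ℕ,
    1 ≤ d → τ ^ d < 2 ^ (12 * K) → ∀ q : ℕ, 1 ≤ q → q ≤ 2 ^ (12 * K + 3) → ∀ p : ℤ,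
      Real.exp (-(D * (K : ℝ) ^ κ)) ≤ |q * τ ^ d - p| := by
  obtain ⟨C, hC, hd⟩ := h
  have hlt : 0 < Real.log τ := Real.log_pos hτ
  have hl2 : 0 < Real.log 2 := Real.log_pos (by norm_num)
  have hl2' : Real.log 2 ≤ 1 := by
    have := Real.log_two_lt_d9
    linarith
  set R : ℝ := 12 / Real.log τ with hR
  have hR0 : 0 < R := by positivity
  refine ⟨C * (R + 15) ^ κ, by positivity, ?_⟩
  intro K hK d hd1 hdl q hq1 hq2 p
  have hK1 : (1 : ℝ) ≤ K := by exact_mod_cast hK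
  refine le_trans (Real.exp_le_exp.2 ?_) (hd d q hd1 hq1 p)
  rw [neg_le_neg_iff, mul_assoc, ← mul_pow]
  refine mul_le_mul_of_nonneg_left (pow_le_pow_left₀ ?_ ?_ κ) hC.le
  · have : 0 ≤ Real.log q := Real.log_nonneg (by exact_mod_cast hq1)
    positivity
  · have e1 : (d : ℝ) ≤ R * K := by
      have h1 : (d : ℝ) * Real.log τ ≤ 12 * K * Real.log 2 := by
        have h2 := Real.log_le_log (by positivity) hdl.le
        rw [Real.log_pow, Real.log_pow] at h2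
        push_cast at h2
        exact h2
      have h2 : 12 * (K : ℝ) * Real.log 2 ≤ 12 * K := by nlinarith
      rw [hR, div_mul_eq_mul_div, le_div_iff₀ hlt]
      linarith
    have e2 : Real.log q ≤ 15 * K := by
      have e3 : (q : ℝ) ≤ (2 : ℝ) ^ (12 * K + 3) := by exact_mod_cast hq2
      have e4 : (0 : ℝ) < q := by exact_mod_cast hq1
      refine (Real.log_le_log e4 e3).trans ?_
      rw [Real.log_pow]
      have e5 : ((12 * K + 3 : ℕ) : ℝ) * Real.log 2 ≤ ((12 * K + 3 : ℕ) : ℝ) * 1 :=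
        mul_le_mul_of_nonneg_left hl2' (by positivity)
      push_cast at e5 ⊢
      linarith
    linarith

end Pool.Agent.Helper23.LD3
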