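import Pool.Agent.Helper23.LD3.TF
import Pool.Agent.Helper34.LD3.Bad

/-!
# Block TT of LD3: the choice of the test times
-/

set_option autoImplicit false

namespace Pool.Agent.Helper23.LD3

open Set Filter Topology
open Pool.Agent.Helper41.LD (Dioph)
open Pool.Agent.Helper41.LD2 (EqA)

/-- in every progression there is an exponent whose power is equidistributed against all the other powers of comparable size -/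
theorem good_exponent {κ g : ℕ} (hκ : 1 ≤ κ) {τ : ℕ → ℝ} (hτ : ∀ h < g, 1 < τ h ∧ Dioph (τ h) κ)
    (hirr : ∀ h < g, ∀ h' < g, h ≠ h' → Irrational (Real.log (τ h) / Real.log (τ h'))) {Q : ℕ} (hQ : 1 ≤ Q) :
    ∃ (C₀ : ℕ) (D : ℝ), 0 < D ∧ ∀ᶠ K : ℕ in atTop, ∃ (Q₀ : ℕ) (ε : ℝ), (Q₀ : ℝ) + 1 ≤ Real.exp (D * (K : ℝ) ^ (2 * κ)) ∧ 0 ≤ ε ∧
      ε ≤ (1 / 2) ^ (12 * K) ∧ ∀ h < g, ∀ e < Q, ∀ u₀ : ℕ, ∃ u : ℕ, u₀ ≤ u ∧ u < u₀ + C₀ * K ∧ u % Q = e ∧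
        ∀ h' < g, ∀ u' : ℕ, ¬ (h' = h ∧ u' = u) → (1 / 2 : ℝ) ^ (12 * K) < τ h' ^ u' / τ h ^ u → τ h' ^ u' / τ h ^ u < 2 ^ (12 * K) →
          (τ h' ^ u' ≤ τ h ^ u ∧ EqA (τ h ^ u / τ h' ^ u') Q₀ ε) ∨ (τ h ^ u ≤ τ h' ^ u' ∧ EqA (τ h' ^ u' / τ h ^ u) Q₀ ε) := by
  refine good_exponent_of hκ hτ hQ fun h hh h' hh' hne => ?_
  have hg : 1 ≤ g := by omega
  exact Pool.Agent.Helper34.LD3.bad_count hκ (hτ h hh).1 (hτ h' hh').1 (hτ h hh).2 (hτ h' hh').2 (hirr h hh h' hh' hne)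
    (C := 100 * g * Q) (V := 4 * g * Q) (Nat.mul_pos (Nat.mul_pos (by norm_num) hg) hQ)
    (Nat.mul_pos (Nat.mul_pos (by norm_num) hg) hQ)

end Pool.Agent.Helper23.LD3
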